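import Pool.Agent.Helper62_MVO.Psh

/-!
# Squad MVO, row ODR (helper62)
-/

set_option autoImplicit false

namespace Pool.Agent.MVO.H62

open Pool.Agent.MVO Finset

/-- the cut behind `t` -/
def cut (t : ℕ) (j : ℕ) : ℕ := if j ≤ t then 0 else 1

theorem cut_mono (t : ℕ) : Monotone (cut t) := by
  intro i j hij
  unfold cut
  split_ifs <;> omega

theorem cut_le (t j : ℕ) : cut t j ≤ 1 := by
  unfold cut
  split_ifs <;> omega

/-- the map `0 ↦ p`, `j ↦ q` -/
def to2 (p q : ℕ) (j : ℕ) : ℕ := if j = 0 then p else q

theorem to2_mono {p q : ℕ} (h : p ≤ q) : Monotone (to2 p q) := by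
  intro i j hij
  unfold to2
  split_ifs <;> omega

theorem to2_inj {p q : ℕ} (h : p < q) (s : Finset ℕ) (hs : ∀ i ∈ s, i ≤ 1) :
    Set.InjOn (to2 p q) s := by
  intro i hi j hj hij
  have h1 := hs i hi
  have h2 := hs j hj
  unfold to2 at hij
  split_ifs at hij <;> omega

theorem par_one_cases {a : ℕ → ℕ} :
    (∀ i ∈ par 1 a, i ≤ 1) := fun _ hi => (mem_par.1 hi).1

theorem EP.mono {R : FC} {m m' d : ℕ} (h : EP R m' d) (hm : m ≤ m') : EP R m d :=
  fun k a b h1 h2 h3 h4 => h k a b h1 h2 (h3.trans hm) (h4.trans hm)

/-- the cut at the smallest element of the symmetric difference -/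
theorem odr_cut {R : FC} {k : ℕ} {a b : ℕ → ℕ} (hR : R.R k a b) (hne : par k a ≠ par k b) :
    ∃ A B : ℕ → ℕ, R.R 1 A B ∧ deg 1 A = deg k a ∧ deg 1 B = deg k b ∧
      ¬ (0 ∈ par 1 A ↔ 0 ∈ par 1 B) := by
  classical
  have hD : (symmDiff (par k a) (par k b)).Nonempty := by
    rw [Finset.nonempty_iff_ne_empty]
    intro h
    apply hne
    exact symmDiff_eq_bot.1 h
  obtain ⟨t, ht, htmin⟩ := Finset.exists_min_image _ id hD
  simp only [id] at htmin
  have hbm : BMap k 1 (cut t) := bmap_of (cut_mono t) (fun i _ => cut_le t i)
  refine ⟨psh k (cut t) a, psh k (cut t) b, R.push 1 (cut t) hbm hR, deg_psh hbm a,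
    deg_psh hbm b, ?_⟩
  rw [mem_par_psh, mem_par_psh]
  have hfil : ∀ c : ℕ → ℕ, ((par k c).filter fun i => cut t i = 0) =
      (par k c).filter fun i => i ≤ t := by
    intro c
    refine Finset.filter_congr fun i _ => ?_
    unfold cut
    split_ifs <;> simp [*]
  rw [hfil, hfil]
  -- the elements below `t` agree
  have hlow : ((par k a).filter fun i => i < t) = (par k b).filter fun i => i < t := by
    ext i
    rw [Finset.mem_filter, Finset.mem_filter]
    refine and_congr_left fun hi => ?_
    by_contra hcon
    have h1 : i ∈ symmDiff (par k a) (par k b) := by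
      rw [Finset.mem_symmDiff]
      tauto
    have := htmin i h1
    omega
  have hsplit : ∀ c : ℕ → ℕ, ((par k c).filter fun i => i ≤ t).card =
      ((par k c).filter fun i => i < t).card + if t ∈ par k c then 1 else 0 := by
    intro c
    have h1 : ((par k c).filter fun i => i ≤ t) =
        ((par k c).filter fun i => i < t) ∪ ((par k c).filter fun i => i = t) := by
      ext i
      rw [Finset.mem_union, Finset.mem_filter, Finset.mem_filter, Finset.mem_filter,
        le_iff_lt_or_eq]
      tauto
    rw [h1, Finset.card_union_of_disjoint]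
    · congr 1
      rw [Finset.filter_eq']
      split_ifs <;> simp
    · rw [Finset.disjoint_filter]
      intro i _ h2 h3
      omega
  rw [hsplit a, hsplit b, hlow]
  rw [Finset.mem_symmDiff] at ht
  simp only [Nat.odd_iff]
  intro h
  rcases ht with ⟨h1, h2⟩ | ⟨h1, h2⟩
  · rw [if_pos h1, if_neg h2] at h
    omega
  · rw [if_neg h2, if_pos h1] at h
    omega

theorem odr_two (hOda : OdaStmt) {R : FC} {d : ℕ} (hO : O4 R) (hd : 3 ≤ d) {A B : ℕ → ℕ}
    (hR : R.R 1 A B) (hA : deg 1 A = d) (hB : deg 1 B = d)
    (hne : ¬ (0 ∈ par 1 A ↔ 0 ∈ par 1 B)) : EP R 2 d := by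
  classical
  -- all vectors are related to vectors in block 0
  have hcases : ∀ S : Finset ℕ, (∀ i ∈ S, i ≤ 1) → ∀ T : Finset ℕ, (∀ i ∈ T, i ≤ 1) →
      (0 ∈ S ↔ 0 ∈ T) → (1 ∈ S ↔ 1 ∈ T) → S = T := by
    intro S hS T hT h0 h1
    ext i
    constructor
    · intro hi
      have := hS i hi
      interval_cases i
      · exact h0.1 hi
      · exact h1.1 hi
    · intro hi
      have := hT i hi
      interval_cases i
      · exact h0.2 hi
      · exact h1.2 hi
  have hparity : ∀ c : ℕ → ℕ, deg 1 c = d →
      ((1 ∈ par 1 c) ↔ ((0 ∈ par 1 c ∧ d % 2 = 0) ∨ (0 ∉ par 1 c ∧ d % 2 = 1))) := by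
    intro c hc
    have h1 := card_par_mod 1 c
    rw [hc] at h1
    have h2 : (par 1 c).card = (if 0 ∈ par 1 c then 1 else 0) + if 1 ∈ par 1 c then 1 else 0 := by
      have h3 : par 1 c = ((par 1 c).filter fun i => i = 0) ∪ ((par 1 c).filter fun i => i = 1) :=
        by
        ext i
        rw [Finset.mem_union, Finset.mem_filter, Finset.mem_filter]
        constructor
        · intro hi
          have := par_one_cases i hi
          interval_cases i
          · exact Or.inl ⟨hi, rfl⟩
          · exact Or.inr ⟨hi, rfl⟩
        · tauto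
      conv_lhs => rw [h3]
      rw [Finset.card_union_of_disjoint]
      · rw [Finset.filter_eq', Finset.filter_eq']
        congr 1
        · split_ifs <;> simp
        · split_ifs <;> simp
      · rw [Finset.disjoint_filter]
        intro i _ h4 h5
        omega
    rw [h2] at h1
    by_cases h3 : 0 ∈ par 1 c <;> by_cases h4 : 1 ∈ par 1 c <;> simp [h3, h4] at h1 ⊢ <;> omega
  -- the symmetric form
  have hsym : ∀ (k : ℕ) (a : ℕ → ℕ), deg k a = d → (par k a).card ≤ 2 →
      R.R k a (sg 0 d) := by
    intro k a ha hcard
    have hdsg : deg k (sg 0 d) = d := by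
      unfold deg sg
      rw [Finset.sum_ite_eq' (range (k + 1)) 0, if_pos (by simp)]
    have hpsg : ∀ i, i ∈ par k (sg 0 d) ↔ i = 0 ∧ d % 2 = 1 := by
      intro i
      rw [mem_par, Nat.odd_iff]
      unfold sg
      split_ifs with h
      · subst h
        simp
      · simp [h]
    by_cases hpar : par k a = par k (sg 0 d)
    · exact hOda R k a (sg 0 d) hO (by rw [ha]; exact hd) (by rw [ha, hdsg]) hpar
    -- otherwise there are p < q
    have hmod := card_par_mod k a
    rw [ha] at hmod
    have key : ∃ p q, p < q ∧ q ≤ k ∧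
        (∀ P : Finset ℕ, (∀ i ∈ P, i ≤ 1) → (1 ∈ P ↔ ((0 ∈ P ∧ d % 2 = 0) ∨
          (0 ∉ P ∧ d % 2 = 1))) → (d % 2 = 0 → (0 ∈ P → P.image (to2 p q) = par k a) ∧
          (0 ∉ P → P.image (to2 p q) = par k (sg 0 d))) ∧ (d % 2 = 1 →
          (0 ∉ P → P.image (to2 p q) = par k a) ∧
          (0 ∈ P → P.image (to2 p q) = par k (sg 0 d)))) := by
      have hP : ∀ P : Finset ℕ, (∀ i ∈ P, i ≤ 1) → P =
          (if 0 ∈ P then {0} else ∅) ∪ (if 1 ∈ P then {1} else ∅) := by
        intro P hP
        ext i
        constructor
        · intro hi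
          have := hP i hi
          interval_cases i
          · simp [hi]
          · simp [hi]
        · intro hi
          rw [Finset.mem_union] at hi
          rcases hi with hi | hi
          · split_ifs at hi with h
            · rw [Finset.mem_singleton] at hi
              rwa [hi]
            · simp at hi
          · split_ifs at hi with h
            · rw [Finset.mem_singleton] at hi
              rwa [hi]
            · simp at hi
      rcases Nat.mod_two_eq_zero_or_one d with hd2 | hd2
      · -- even
        have h2 : (par k a).card = 2 := by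
          have h3 : (par k a).card ≠ 0 := by
            intro h0
            apply hpar
            rw [Finset.card_eq_zero.1 h0]
            ext i
            rw [hpsg]
            simp [hd2]
          omega
        obtain ⟨p, q, hpq, hS⟩ := Finset.card_eq_two.1 h2
        wlog hlt : p < q generalizing p q with H
        · exact H q p hpq.symm (by rw [hS, Finset.pair_comm]) (by omega)
        refine ⟨p, q, hlt, ?_, ?_⟩
        · have : q ∈ par k a := by rw [hS]; simp
          exact (mem_par.1 this).1
        · intro P hP1 hP2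
          refine ⟨fun _ => ⟨fun h0 => ?_, fun h0 => ?_⟩, fun h => by omega⟩
          · have h1 : 1 ∈ P := hP2.2 (Or.inl ⟨h0, hd2⟩)
            rw [hP P hP1, if_pos h0, if_pos h1, hS]
            simp [Finset.image_union, to2]
          · have h1 : 1 ∉ P := by
              rw [hP2]
              rintro (h | h)
              · exact h0 h.1
              · omega
            rw [hP P hP1, if_neg h0, if_neg h1]
            ext i
            rw [hpsg]
            simp [hd2]
      · -- odd
        have h2 : (par k a).card = 1 := by omega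
        obtain ⟨q, hS⟩ := Finset.card_eq_one.1 h2
        have hq : q ≠ 0 := by
          rintro rfl
          apply hpar
          rw [hS]
          ext i
          rw [hpsg]
          simp [hd2]
        refine ⟨0, q, by omega, ?_, ?_⟩
        · have : q ∈ par k a := by rw [hS]; simp
          exact (mem_par.1 this).1
        · intro P hP1 hP2
          refine ⟨fun h => by omega, fun _ => ⟨fun h0 => ?_, fun h0 => ?_⟩⟩
          · have h1 : 1 ∈ P := hP2.2 (Or.inr ⟨h0, hd2⟩)
            rw [hP P hP1, if_neg h0, if_pos h1, hS]
            simp [to2]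
          · have h1 : 1 ∉ P := by
              rw [hP2]
              rintro (h | h)
              · omega
              · exact h.1 h0
            rw [hP P hP1, if_pos h0, if_neg h1]
            ext i
            rw [hpsg]
            simp [hd2, to2]
    obtain ⟨p, q, hpq, hqk, hkey⟩ := key
    have hbm : BMap 1 k (to2 p q) := by
      refine bmap_of (to2_mono hpq.le) fun i _ => ?_
      unfold to2
      split_ifs <;> omega
    have hpush := R.push k (to2 p q) hbm hR
    have hpA : par k (psh 1 (to2 p q) A) = (par 1 A).image (to2 p q) :=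
      par_psh_inj hbm A (to2_inj hpq _ par_one_cases)
    have hpB : par k (psh 1 (to2 p q) B) = (par 1 B).image (to2 p q) :=
      par_psh_inj hbm B (to2_inj hpq _ par_one_cases)
    have hdA : deg k (psh 1 (to2 p q) A) = d := by rw [deg_psh hbm, hA]
    have hdB : deg k (psh 1 (to2 p q) B) = d := by rw [deg_psh hbm, hB]
    have hkA := hkey (par 1 A) par_one_cases (hparity A hA)
    have hkB := hkey (par 1 B) par_one_cases (hparity B hB)
    -- one of the two pushed vectors has the parity of `a`, the other one that of `sg 0 d`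
    have hfin : ∀ X Y : ℕ → ℕ, R.R k X Y → deg k X = d → deg k Y = d → par k X = par k a →
        par k Y = par k (sg 0 d) → R.R k a (sg 0 d) := by
      intro X Y hXY hX hY hpX hpY
      have h1 : R.R k a X := hOda R k a X hO (by rw [ha]; exact hd) (by rw [ha, hX]) hpX.symm
      have h2 : R.R k Y (sg 0 d) :=
        hOda R k Y (sg 0 d) hO (by rw [hY]; exact hd) (by rw [hY, hdsg]) hpY
      exact R.trans h1 (R.trans hXY h2)
    rcases Nat.mod_two_eq_zero_or_one d with hd2 | hd2
    · obtain ⟨hkA1, hkA2⟩ := hkA.1 hd2
      obtain ⟨hkB1, hkB2⟩ := hkB.1 hd2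
      by_cases h0 : 0 ∈ par 1 A
      · have h0' : 0 ∉ par 1 B := fun h => hne ⟨fun _ => h, fun _ => h0⟩
        exact hfin _ _ hpush hdA hdB (hpA.trans (hkA1 h0)) (hpB.trans (hkB2 h0'))
      · have h0' : 0 ∈ par 1 B := by
          by_contra h
          exact hne ⟨fun h' => absurd h' h0, fun h' => absurd h' h⟩
        exact hfin _ _ (R.symm hpush) hdB hdA (hpB.trans (hkB1 h0')) (hpA.trans (hkA2 h0))
    · obtain ⟨hkA1, hkA2⟩ := hkA.2 hd2
      obtain ⟨hkB1, hkB2⟩ := hkB.2 hd2
      by_cases h0 : 0 ∈ par 1 A
      · have h0' : 0 ∉ par 1 B := fun h => hne ⟨fun _ => h, fun _ => h0⟩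
        exact hfin _ _ (R.symm hpush) hdB hdA (hpB.trans (hkB1 h0')) (hpA.trans (hkA2 h0))
      · have h0' : 0 ∈ par 1 B := by
          by_contra h
          exact hne ⟨fun h' => absurd h' h0, fun h' => absurd h' h⟩
        exact hfin _ _ hpush hdA hdB (hpA.trans (hkA1 h0)) (hpB.trans (hkB2 h0'))
  intro k a b ha hb hca hcb
  exact R.trans (hsym k a ha hca) (R.symm (hsym k b hb hcb))

/-- identify the blocks `i`, `i + 1` -/
def idn (i j : ℕ) : ℕ := if j ≤ i then j else j - 1

theorem idn_mono (i : ℕ) : Monotone (idn i) := by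
  intro j l hjl
  unfold idn
  split_ifs <;> omega

theorem odr_main (hSep : SepStmt) (hOda : OdaStmt) (R : FC) (d : ℕ) (hO : O4 R) (hd : 3 ≤ d) :
    ∀ m : ℕ, ∀ (k : ℕ) (a b : ℕ → ℕ), deg k a = d → deg k b = d → R.R k a b →
      (par k a).card = m → (par k b).card ≤ m → par k a ≠ par k b → EP R m d := by
  classical
  intro m
  induction m using Nat.strong_induction_on with
  | _ m ih =>
  intro k a b ha hb hR hma hmb hne
  rcases Nat.lt_or_ge m 3 with hm | hm
  · obtain ⟨A, B, hAB, hA, hB, h0⟩ := odr_cut hR hne
    exact EP.mono (odr_two hOda hO hd hAB (hA.trans ha) (hB.trans hb) h0) (by omega)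
  -- the general form of the induction hypothesis
  have ih' : ∀ (k : ℕ) (a b : ℕ → ℕ), deg k a = d → deg k b = d → R.R k a b →
      (par k a).card = m - 2 → (par k b).card ≤ m - 2 → par k a ≠ par k b → EP R (m - 2) d :=
    ih (m - 2) (by omega)
  -- Step A
  have hA : ∃ (k : ℕ) (a b : ℕ → ℕ), deg k a = d ∧ deg k b = d ∧ R.R k a b ∧
      (par k a).card = m ∧ par k b ⊂ par k a := by
    by_cases hemp : (par k b).Nonempty
    · have hneA : (par k a).Nonempty := Finset.card_pos.1 (by omega)
      rcases hSep (par k a) (par k b) hneA hemp hne (by omega) (by omega) with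
        ⟨f, hf, hfS, hfid, hfim⟩ | ⟨hcard, f, hf, hfS, hfid, hfim⟩
      · have hbm : BMap k k f := bmap_of hf (fun i _ => (mem_par.1 (hfS i)).1)
        have hinj : Set.InjOn f (par k a) := by
          intro x hx y hy hxy
          rw [hfid x hx, hfid y hy] at hxy
          exact hxy
        have h1 : par k (psh k f a) = par k a := by
          rw [par_psh_inj hbm a hinj]
          exact (Finset.image_congr (g := id) (fun x hx => hfid x hx)).trans Finset.image_id
        refine ⟨k, psh k f a, psh k f b, by rw [deg_psh hbm, ha], by rw [deg_psh hbm, hb],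
          R.push k f hbm hR, by rw [h1, hma], ?_⟩
        rw [h1]
        exact Finset.ssubset_of_subset_of_ssubset (par_psh_subset b) hfim
      · have hbm : BMap k k f := bmap_of hf (fun i _ => (mem_par.1 (hfS i)).1)
        have hinj : Set.InjOn f (par k b) := by
          intro x hx y hy hxy
          rw [hfid x hx, hfid y hy] at hxy
          exact hxy
        have h1 : par k (psh k f b) = par k b := by
          rw [par_psh_inj hbm b hinj]
          exact (Finset.image_congr (g := id) (fun x hx => hfid x hx)).trans Finset.image_id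
        refine ⟨k, psh k f b, psh k f a, by rw [deg_psh hbm, hb], by rw [deg_psh hbm, ha],
          R.push k f hbm (R.symm hR), by rw [h1]; omega, ?_⟩
        rw [h1]
        exact Finset.ssubset_of_subset_of_ssubset (par_psh_subset a) hfim
    · rw [Finset.not_nonempty_iff_eq_empty] at hemp
      refine ⟨k, a, b, ha, hb, hR, hma, ?_⟩
      rw [hemp, Finset.empty_ssubset]
      exact Finset.card_pos.1 (by omega)
  clear hne hmb hma hR ha hb
  clear k a b
  obtain ⟨k, a, b, ha, hb, hR, hma, hss⟩ := hA
  obtain ⟨μ, hμ⟩ : ∃ μ, m = μ + 1 := ⟨m - 1, by omega⟩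
  have hneA : (par k a).Nonempty := Finset.card_pos.1 (by omega)
  -- Step B
  have hB : ∃ a b : ℕ → ℕ, deg μ a = d ∧ deg μ b = d ∧ R.R μ a b ∧
      par μ a = range m ∧ (par μ b).card ≤ m - 2 := by
    have hbm : BMap k μ (rk (par k a)) := bmap_of (rk_mono _) (fun i _ => by
      have := rk_lt (par k a) hneA i
      omega)
    have h1 : par μ (psh k (rk (par k a)) a) = range m := by
      rw [par_psh_inj hbm a (rk_inj _), rk_image _ hneA, hma]
    refine ⟨psh k (rk (par k a)) a, psh k (rk (par k a)) b, by rw [deg_psh hbm, ha],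
      by rw [deg_psh hbm, hb], R.push μ _ hbm hR, h1, ?_⟩
    have h2 : (par k b).card < m := by
      rw [← hma]
      exact Finset.card_lt_card hss
    have h3 := card_par_mod k b
    have h4 := card_par_mod k a
    rw [hb] at h3
    rw [ha, hma] at h4
    have h5 := card_par_psh_le (k' := μ) (f := rk (par k a)) (k := k) b
    omega
  obtain ⟨a₁, b₁, ha₁, hb₁, hR₁, hp₁, hc₁⟩ := hB
  -- Step C
  have hC : EP R (m - 2) d := by
    by_contra hcon
    have hid : ∀ i, i + 1 < m → par (m - 2) (psh μ (idn i) b₁) = (range (m - 1)).erase i := by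
      intro i hi
      have hbm : BMap μ (m - 2) (idn i) := bmap_of (idn_mono i) (fun j hj => by
        unfold idn
        split_ifs <;> omega)
      have h1 : par (m - 2) (psh μ (idn i) a₁) = (range (m - 1)).erase i := by
        ext j
        rw [mem_par_psh, hp₁, Finset.mem_erase, Finset.mem_range]
        by_cases hji : j = i
        · subst hji
          have h2 : ((range m).filter fun l => idn j l = j) = {j, j + 1} := by
            ext l
            rw [Finset.mem_filter, Finset.mem_range, Finset.mem_insert, Finset.mem_singleton]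
            unfold idn
            split_ifs <;> omega
          rw [h2, Finset.card_pair (by omega)]
          simp
        · have h2 : j ≤ m - 2 → ((range m).filter fun l => idn i l = j) =
              {if j < i then j else j + 1} := by
            intro hj
            ext l
            rw [Finset.mem_filter, Finset.mem_range, Finset.mem_singleton]
            unfold idn
            split_ifs <;> omega
          constructor
          · rintro ⟨h3, _⟩
            exact ⟨hji, by omega⟩
          · rintro ⟨_, h3⟩
            refine ⟨by omega, ?_⟩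
            rw [h2 (by omega), Finset.card_singleton]
            exact odd_one
      by_contra hne
      apply hcon
      refine ih' (m - 2) (psh μ (idn i) a₁) (psh μ (idn i) b₁) (by rw [deg_psh hbm, ha₁])
        (by rw [deg_psh hbm, hb₁]) (R.push _ _ hbm hR₁) ?_ ?_ ?_
      · rw [h1, Finset.card_erase_of_mem (Finset.mem_range.2 (by omega)), Finset.card_range]
        omega
      · exact (card_par_psh_le b₁).trans hc₁
      · rw [h1]
        exact fun h => hne h.symm
    have h0 := hid 0 (by omega)
    have h1 := hid (m - 2) (by omega)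
    -- the set contains `0` and `2, ..., m - 1`
    have hbig : (range m).erase 1 ⊆ par μ b₁ := by
      intro l hl
      rw [Finset.mem_erase, Finset.mem_range] at hl
      by_cases hl0 : l = 0
      · subst hl0
        have h2 : (0 : ℕ) ∈ par (m - 2) (psh μ (idn (m - 2)) b₁) := by
          rw [h1, Finset.mem_erase, Finset.mem_range]
          omega
        rw [mem_par_psh] at h2
        obtain ⟨i, hi⟩ := Finset.card_pos.1 h2.2.pos
        rw [Finset.mem_filter] at hi
        have h3 : i = 0 := by
          have h4 := hi.2
          have h5 := (mem_par.1 hi.1).1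
          unfold idn at h4
          split_ifs at h4 <;> omega
        rw [← h3]
        exact hi.1
      · have h2 : l - 1 ∈ par (m - 2) (psh μ (idn 0) b₁) := by
          rw [h0, Finset.mem_erase, Finset.mem_range]
          omega
        rw [mem_par_psh] at h2
        obtain ⟨i, hi⟩ := Finset.card_pos.1 h2.2.pos
        rw [Finset.mem_filter] at hi
        have h3 : i = l := by
          have h4 := hi.2
          unfold idn at h4
          split_ifs at h4 <;> omega
        rw [← h3]
        exact hi.1
    have h2 := Finset.card_le_card hbig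
    rw [Finset.card_erase_of_mem (Finset.mem_range.2 (by omega)), Finset.card_range] at h2
    omega
  -- Step D
  have hD : ∀ (k : ℕ) (c : ℕ → ℕ), deg k c = d → (par k c).card ≤ m →
      ∃ c', deg k c' = d ∧ (par k c').card ≤ m - 2 ∧ R.R k c c' := by
    intro k c hc hcard
    by_cases h1 : (par k c).card ≤ m - 2
    · exact ⟨c, hc, h1, R.refl k c⟩
    have h2 : (par k c).card = m := by
      have h3 := card_par_mod k c
      have h4 := card_par_mod μ a₁
      rw [hc] at h3
      rw [ha₁, hp₁, Finset.card_range] at h4
      omega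
    have hbm : BMap μ k (en (par k c)) :=
      en_bmap (fun s hs => (mem_par.1 hs).1) (by omega)
    have h3 : par k (psh μ (en (par k c)) a₁) = par k c := by
      rw [par_psh_inj hbm a₁ (by rw [hp₁, ← h2]; exact en_inj _), hp₁, ← h2, en_image]
    have h4 : deg k (psh μ (en (par k c)) a₁) = d := by rw [deg_psh hbm, ha₁]
    refine ⟨psh μ (en (par k c)) b₁, by rw [deg_psh hbm, hb₁],
      (card_par_psh_le b₁).trans hc₁, ?_⟩
    have h5 : R.R k c (psh μ (en (par k c)) a₁) :=
      hOda R k _ _ hO (by rw [hc]; exact hd) (by rw [hc, h4]) h3.symm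
    exact R.trans h5 (R.push k _ hbm hR₁)
  intro k' c c' hc hc' hcc hcc'
  obtain ⟨x, hx, hxc, hx'⟩ := hD k' c hc hcc
  obtain ⟨y, hy, hyc, hy'⟩ := hD k' c' hc' hcc'
  exact R.trans hx' (R.trans (hC k' x y hx hy hxc hyc) (R.symm hy'))

theorem odr (hSep : SepStmt) (hOda : OdaStmt) : OdrStmt := by
  intro R k a b hO hd hab hR hne
  rcases le_total (par k b).card (par k a).card with h | h
  · rw [max_eq_left h]
    exact odr_main hSep hOda R (deg k a) hO hd _ k a b rfl hab.symm hR rfl h hne
  · rw [max_eq_right h]
    exact odr_main hSep hOda R (deg k a) hO hd _ k b a hab.symm rfl (R.symm hR) rfl h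
      (Ne.symm hne)

end Pool.Agent.MVO.H62
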