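import Pool.Agent.MVO.StmtsE

/-!
# Squad MVO, row DT3: two letters determine everything (class c3, generic case)
-/

set_option autoImplicit false

namespace Pool.Agent.MVO.H62

open Pool.Agent.Helper14_MV Pool.Agent.Helper2_MV

theorem filter_self (c : ℕ) (l : List ℕ) :
    (l.filter (fun x => decide (x = c ∨ x = c))).flatMap (fun _ => [0]) =
      List.replicate (l.count c) 0 := by
  induction l with
  | nil => rfl
  | cons a l ih =>
    by_cases h : a = c
    · subst h
      rw [List.filter_cons_of_pos (by simp), List.flatMap_cons, ih, List.count_cons_self,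
        List.replicate_succ]
      rfl
    · rw [List.filter_cons_of_neg (by simp [h]), ih, List.count_cons_of_ne h]

/-- the restriction to two letters of two related words -/
theorem rr_r2 {ω : FIC} {k : ℕ} {B B' : ℕ → List ℕ} (hB : BlkOk k B) (hB' : BlkOk k B')
    (h : RR ω (asm k B) (asm k B')) (x y : ℕ) : RR ω (asm k (r2 x y B)) (asm k (r2 x y B')) := by
  have h1 := h.filter (fun c => decide (c = x ∨ c = y ∨ (2 ≤ c ∧ c ≤ k + 1)))
  have hp : ∀ c, 2 ≤ c → c ≤ k + 1 → decide (c = x ∨ c = y ∨ (2 ≤ c ∧ c ≤ k + 1)) = true := by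
    intro c h2 h3
    rw [decide_eq_true_iff]
    exact Or.inr (Or.inr ⟨h2, h3⟩)
  rw [asm_filter _ hp, asm_filter _ hp] at h1
  have e : ∀ C : ℕ → List ℕ, BlkOk k C →
      asm k (fun j => (C j).filter (fun c => decide (c = x ∨ c = y ∨ (2 ≤ c ∧ c ≤ k + 1)))) =
        asm k (r2 x y C) := by
    intro C hC
    apply asm_congr
    intro j hj
    unfold r2
    apply List.filter_congr
    intro c hc
    have := hC j hj c hc
    unfold NS at this
    rw [decide_eq_decide]
    tauto
  rw [e B hB, e B' hB'] at h1
  exact h1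

/-- **Row DT3**. -/
theorem dt3 (hAlb : AlbStmt) (hSrt : SrtStmt) : Dt3Stmt := by
  intro ω h3 hA hAd k B B' hB hB' hM hdeg hr
  have hL1 : ∀ c, NS k c → L1 ω k (fun j => (B j).count c) (fun j => (B' j).count c) := by
    intro c hc
    have hok : ∀ C : ℕ → List ℕ, BlkOk k C → BlkOk k (r2 c c C) := by
      intro C hC j hj d hd
      unfold r2 at hd
      exact hC j hj d (List.mem_of_mem_filter hd)
    have h1 := rr_sub ω (fun _ => [0]) (hok B hB) (hok B' hB') (hr c c)
    have e : ∀ C : ℕ → List ℕ, asm k (fun j => (r2 c c C j).flatMap (fun _ => [0])) =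
        mw k (fun j => (C j).count c) := by
      intro C
      unfold mw r2
      apply asm_congr
      intro j _
      exact filter_self c (C j)
    rw [e B, e B'] at h1
    exact h1
  obtain ⟨B1, hB1, hr1, hc1⟩ := hAlb ω h3.cc h3.l3.2.2 hA hAd k B B' hB hB' hM hdeg hL1
  have hd1 : ∀ c, deg k (fun j => (B1 j).count c) = deg k (fun j => (B' j).count c) := by
    intro c
    unfold deg
    apply Finset.sum_congr rfl
    intro j hj
    rw [Finset.mem_range] at hj
    exact hc1 j (by omega) c
  have hM1 : AMul k B1 := by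
    intro j hj c hc
    rw [hd1 c, ← hdeg c]
    have h1 : 0 < deg k (fun j => (B j).count c) := by
      rw [hdeg c, ← hd1 c]
      unfold deg
      apply Finset.sum_pos' (fun _ _ => Nat.zero_le _)
      exact ⟨j, Finset.mem_range.2 (by omega), List.count_pos_iff.2 hc⟩
    have h2 : ∃ j' ≤ k, c ∈ B j' := by
      by_contra hcon
      push Not at hcon
      apply h1.ne'
      unfold deg
      apply Finset.sum_eq_zero
      intro j' hj'
      rw [Finset.mem_range] at hj'
      exact List.count_eq_zero_of_not_mem (hcon j' (by omega))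
    obtain ⟨j', hj', hcj⟩ := h2
    exact hM j' hj' c hcj
  have hs := hSrt ω h3 hA hAd k B1 B' hB1 hB' hM1 hc1 (fun x y =>
    ω.trans (rr_r2 hB hB1 hr1 x y).symm (hr x y))
  exact ω.trans hr1 hs

end Pool.Agent.MVO.H62
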