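import Pool.Agent.MVO.StmtsC

/-!
# Squad MVO, row GBC: every block can be gathered in its context (class c1)
-/

set_option autoImplicit false

namespace Pool.Agent.MVO.H62

open Pool.Agent.Helper14_MV Pool.Agent.Helper2_MV

theorem gb_congr {n n' : ℕ → ℕ} {D : List ℕ} (h : ∀ c ∈ D, n c = n' c) : gb n D = gb n' D := by
  unfold gb
  apply List.flatMap_congr
  intro c hc
  rw [h c hc]

theorem gb_append (n : ℕ → ℕ) (D E : List ℕ) : gb n (D ++ E) = gb n D ++ gb n E := by
  unfold gb
  rw [List.flatMap_append]

theorem gb_cons (n : ℕ → ℕ) (c : ℕ) (D : List ℕ) :
    gb n (c :: D) = List.replicate (n c) c ++ gb n D := by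
  unfold gb
  rw [List.flatMap_cons]

/-- **Row GBC**. -/
theorem gbc (hGmc : GmcStmt) : GbcStmt := by
  intro β hβ L
  induction L using List.reverseRecOn with
  | nil =>
    intro p q _
    exact ⟨[], List.nodup_nil, fun c => Iff.rfl, RR.refl _⟩
  | append_singleton L z ih =>
    intro p q hm
    obtain ⟨D', hn, hmem, hr⟩ := ih p (z :: q) (by
      intro c hc
      have := hm c (List.mem_append_left _ hc)
      simpa using this)
    have hr' : RR β (p ++ (L ++ [z]) ++ q) (p ++ gb (fun c => L.count c) D' ++ z :: q) := by
      simpa using hr
    by_cases hz : z ∈ L
    · obtain ⟨D1, D2, rfl⟩ := List.append_of_mem ((hmem z).2 hz)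
      have hz1 : z ∉ D1 := by
        intro h
        rw [List.nodup_append] at hn
        exact hn.2.2 z h z (by simp) rfl
      have hz2 : z ∉ D2 := by
        rw [List.nodup_append] at hn
        exact (List.nodup_cons.1 hn.2.1).1
      have hn2 : D2.Nodup := by
        rw [List.nodup_append] at hn
        exact (List.nodup_cons.1 hn.2.1).2
      obtain ⟨D3, hp3, hr3⟩ := hGmc β hβ D2 (fun c => L.count c) z (L.count z)
        (p ++ gb (fun c => L.count c) D1) q hn2 hz2 (List.count_pos_iff.2 hz) (by
          intro c hc
          exact List.count_pos_iff.2 ((hmem c).1 (by simp [hc]))) (by
          intro c hc h1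
          have hcL : c ∈ L := (hmem c).1 (by simp [hc])
          have h2 := hm c (List.mem_append_left _ hcL)
          have hcz : ¬ (z == c) = true := by
            simp only [beq_iff_eq]
            rintro rfl
            exact hz2 hc
          simp only [List.count_append, List.count_cons, List.count_nil, hcz] at h2
          simp only [Bool.false_eq_true, if_false] at h2
          by_cases hcp : c ∈ p
          · left
            exact List.mem_append_left _ hcp
          · right
            have h3 := List.count_eq_zero_of_not_mem hcp
            apply List.count_pos_iff.1
            omega)
      refine ⟨D1 ++ D3, ?_, ?_, ?_⟩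
      · have h5 : (D1 ++ D3).Perm (D1 ++ z :: D2) := List.Perm.append_left _ hp3
        exact h5.nodup_iff.2 hn
      · intro c
        have h5 : (D1 ++ D3).Perm (D1 ++ z :: D2) := List.Perm.append_left _ hp3
        rw [h5.mem_iff, hmem c, List.mem_append]
        constructor
        · exact fun h => Or.inl h
        · rintro (h | h)
          · exact h
          · rw [List.mem_singleton] at h
            rw [h]
            exact hz
      · have e1 : gb (fun c => L.count c) (D1 ++ z :: D2) = gb (fun c => L.count c) D1 ++
            (List.replicate (L.count z) z ++ gb (fun c => L.count c) D2) := by
          rw [gb_append, gb_cons]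
        have e2 : gb (fun c => (L ++ [z]).count c) (D1 ++ D3) = gb (fun c => L.count c) D1 ++
            gb (Function.update (fun c => L.count c) z (L.count z + 1)) D3 := by
          rw [gb_append]
          congr 1
          · apply gb_congr
            intro c hc
            have : ¬ (z == c) = true := by
              simp only [beq_iff_eq]
              rintro rfl
              exact hz1 hc
            simp only [List.count_append, List.count_cons, List.count_nil, this]
            simp
          · apply gb_congr
            intro c _
            by_cases hcz : c = z
            · subst hcz
              simp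
            · rw [Function.update_of_ne hcz]
              have : ¬ (z == c) = true := by
                simp only [beq_iff_eq]
                exact fun h => hcz h.symm
              simp only [List.count_append, List.count_cons, List.count_nil, this]
              simp
        rw [e2]
        refine β.trans hr' ?_
        rw [e1]
        have h6 : RR β (p ++ (gb (fun c => L.count c) D1 ++
            (List.replicate (L.count z) z ++ gb (fun c => L.count c) D2)) ++ z :: q)
            (p ++ (gb (fun c => L.count c) D1 ++
            gb (Function.update (fun c => L.count c) z (L.count z + 1)) D3) ++ q) := by
          simpa using hr3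
        exact h6
    · refine ⟨D' ++ [z], ?_, ?_, ?_⟩
      · rw [List.nodup_append]
        refine ⟨hn, List.nodup_singleton z, ?_⟩
        intro a ha b hb
        rw [List.mem_singleton] at hb
        rintro rfl
        rw [hb] at ha
        exact hz ((hmem z).1 ha)
      · intro c
        rw [List.mem_append, List.mem_append, hmem c]
      · have e1 : gb (fun c => (L ++ [z]).count c) (D' ++ [z])
            = gb (fun c => L.count c) D' ++ [z] := by
          rw [gb_append]
          congr 1
          · apply gb_congr
            intro c hc
            have : ¬ (z == c) = true := by
              simp only [beq_iff_eq]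
              rintro rfl
              exact hz ((hmem z).1 hc)
            simp only [List.count_append, List.count_cons, List.count_nil, this]
            simp
          · unfold gb
            simp [List.count_eq_zero_of_not_mem hz]
        rw [e1]
        simpa using hr'

end Pool.Agent.MVO.H62
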