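import Pool.Agent.Helper62_MVO.Prf
import Pool.Agent.Helper62_MVO.ODR

/-!
# Squad MVO, row OCR: what a relation between different profiles implies, over `O3`
-/

set_option autoImplicit false

namespace Pool.Agent.MVO.H62

open Pool.Agent.MVO Finset

theorem fs_single (f : ℕ → ℕ) (q : ℕ) : fs f {q} = {f q} := by
  rw [fs_inj, image_singleton]
  intro x hx y hy _
  rw [mem_coe, mem_singleton] at hx hy
  rw [hx, hy]

theorem ocr_prop (hSep : SepStmt) {R : FC} {d m : ℕ} {P Q : Finset ℕ} (hm : 3 ≤ m)
    (hT : Tp R d P Q) (hP : P.Nonempty) (hQ : Q.Nonempty) (hne : tr m P ≠ tr m Q)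
    (hc : m ≤ P.card) : ∃ S S' : Finset ℕ, S.card = m ∧ S' ⊂ S ∧ S'.Nonempty ∧ Tp R d S S' := by
  have c1 : (tr m P).card = m := by
    rw [tr_card]
    exact min_eq_left hc
  have c2 : (tr m Q).card ≤ m := by
    rw [tr_card]
    exact min_le_left _ _
  rcases hSep (tr m P) (tr m Q) (tr_nonempty (by omega) hP) (tr_nonempty (by omega) hQ) hne
    (by omega) (by omega) with ⟨f, hf, h1, h2, h3⟩ | ⟨h0, f, hf, h1, h2, h3⟩
  · refine ⟨tr m P, fs f Q, c1, ?_, fs_nonempty hf hQ, ?_⟩
    · rw [Finset.ssubset_iff_subset_ne]
      constructor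
      · intro j hj
        obtain ⟨q, _, rfl⟩ := mem_image.1 (fs_subset f Q hj)
        exact h1 q
      · intro he
        have h4 := fs_from (m := m) (Q := Q) hf (by rw [he, c1])
        rw [he] at h4
        exact h3.2 h4
    · have h4 := hT.push hf
      rw [fs_ret hf h1 h2] at h4
      exact h4
  · refine ⟨tr m Q, fs f P, by omega, ?_, fs_nonempty hf hP, ?_⟩
    · rw [Finset.ssubset_iff_subset_ne]
      constructor
      · intro j hj
        obtain ⟨q, _, rfl⟩ := mem_image.1 (fs_subset f P hj)
        exact h1 q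
      · intro he
        have h4 := fs_from (m := m) (Q := P) hf (by rw [he]; omega)
        rw [he] at h4
        exact h3.2 h4
    · have h4 := hT.symm.push hf
      rw [fs_ret hf h1 h2] at h4
      exact h4

theorem mn_mono (t : ℕ) : Monotone (fun j : ℕ => min j t) := fun i j hij => by
  simp only [le_min_iff]
  omega

theorem fs_mn {m : ℕ} (hm : 2 ≤ m) : fs (fun j => min j (m - 2)) (range m) = range (m - 1) := by
  ext j
  rw [mem_fs, mem_range]
  constructor
  · rintro ⟨⟨p, hp, rfl⟩, _⟩
    rw [mem_range] at hp
    have := min_le_right p (m - 2)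
    omega
  · intro hj
    refine ⟨⟨j, mem_range.2 (by omega), min_eq_left (by omega)⟩, ?_⟩
    intro i hi
    have h3 : (range m).filter (fun p => min p (m - 2) = i) ⊆ {i} := by
      intro p hp
      rw [mem_filter] at hp
      rw [mem_singleton]
      rcases le_total p (m - 2) with h | h
      · rw [min_eq_left h] at hp
        exact hp.2
      · rw [min_eq_right h] at hp
        omega
    exact (Finset.card_le_card h3).trans (by simp)

theorem ocr_j3 {R : FC} {d m : ℕ} (hOca : OcaStmt) (hO : O3 R) (hm : 3 ≤ m) {Q : Finset ℕ}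
    (hT : Tp R d (range m) Q) (hQ : Q ⊂ range m) (hQn : Q.Nonempty) :
    Tp R d (range m) (range (m - 1)) := by
  classical
  have hQ1 := hQ.1
  have hQ2 := hQ.2
  have hex : ∃ c, c < m ∧ c ∉ Q := by
    by_contra hcon
    push Not at hcon
    apply hQ2
    intro x hx
    exact hcon x (mem_range.1 hx)
  obtain ⟨hc1, hc2⟩ := Nat.find_spec hex
  have hmin : ∀ x < Nat.find hex, x ∈ Q := by
    intro x hx
    have h := Nat.find_min hex hx
    push Not at h
    exact h (by omega)
  set c := Nat.find hex with hcdef
  clear_value c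
  by_cases hc0 : c = 0
  · subst hc0
    -- `0 ∉ Q`
    set q := Q.min' hQn with hq
    have hqQ : q ∈ Q := Q.min'_mem hQn
    have hq1 : 1 ≤ q := by
      by_contra hcon
      have : q = 0 := by omega
      rw [this] at hqQ
      exact hc2 hqQ
    have hqm : q < m := mem_range.1 (hQ1 hqQ)
    have hmx : Monotone (fun j : ℕ => max j q) := fun i j hij => by
      simp only [max_le_iff, le_max_iff]
      omega
    have h1 := hT.push hmx
    have e1 : fs (fun j => max j q) Q = Q := by
      apply fs_id
      intro p hp
      exact max_eq_left (Q.min'_le p hp)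
    have e2 : fs (fun j => max j q) (range m) = {q} := by
      ext j
      rw [mem_fs, mem_singleton]
      constructor
      · rintro ⟨⟨p, hp, rfl⟩, h2⟩
        by_contra hcon
        have h3 : q < max p q := lt_of_le_of_ne (le_max_right _ _) (Ne.symm hcon)
        have h4 := h2 q h3
        rw [Finset.card_le_one] at h4
        have := h4 0 (mem_filter.2 ⟨mem_range.2 (by omega), max_eq_right (by omega)⟩) 1
          (mem_filter.2 ⟨mem_range.2 (by omega), max_eq_right (by omega)⟩)
        omega
      · rintro rfl
        refine ⟨⟨q, mem_range.2 hqm, max_self q⟩, ?_⟩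
        intro i hi
        rw [Finset.filter_false_of_mem]
        · simp
        · intro p _
          have := le_max_right p q
          omega
    rw [e1, e2] at h1
    -- `{q} ~ Q ~ range m`
    have h2 : Tp R d {q} (range m) := h1.trans hOca hO hT.symm
    have h3 := h2.push (mn_mono (m - 2))
    rw [fs_mn (by omega), fs_single] at h3
    by_cases hqm2 : q ≤ m - 2
    · rw [min_eq_left hqm2] at h3
      exact h2.symm.trans hOca hO h3
    · have hqe : q = m - 1 := by omega
      rw [min_eq_right (by omega)] at h3
      have h4 := h2.push (cut_mono 1)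
      have e3 : cut 1 q = 1 := by
        unfold cut
        rw [if_neg]
        omega
      have e4 : fs (cut 1) (range m) = {0} := by
        ext j
        rw [mem_fs, mem_singleton]
        constructor
        · rintro ⟨⟨p, hp, rfl⟩, h5⟩
          by_contra hcon
          have h6 := h5 0 (by omega)
          rw [Finset.card_le_one] at h6
          have := h6 0 (mem_filter.2 ⟨mem_range.2 (by omega), by simp [cut]⟩) 1
            (mem_filter.2 ⟨mem_range.2 (by omega), by simp [cut]⟩)
          omega
        · rintro rfl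
          exact ⟨⟨0, mem_range.2 (by omega), by simp [cut]⟩, fun i hi => by omega⟩
      rw [fs_single, e3, e4] at h4
      have h5 := h4.push (to2_mono (p := m - 2) (q := m - 1) (by omega))
      rw [fs_single, fs_single] at h5
      have e5 : to2 (m - 2) (m - 1) 1 = m - 1 := by simp [to2]
      have e6 : to2 (m - 2) (m - 1) 0 = m - 2 := by simp [to2]
      rw [e5, e6] at h5
      rw [hqe] at h2
      exact h2.symm.trans hOca hO (h5.trans hOca hO h3)
  · -- the elements below `c` are in `Q`
    have hf : Monotone (fun j : ℕ => if j = c then c - 1 else j) := fun i j hij => by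
      simp only
      split_ifs <;> omega
    have h1 := hT.push hf
    have e1 : fs (fun j => if j = c then c - 1 else j) Q = Q := by
      apply fs_id
      intro p hp
      rw [if_neg]
      rintro rfl
      exact hc2 hp
    have e2 : fs (fun j => if j = c then c - 1 else j) (range m) = range c := by
      ext j
      rw [mem_fs, mem_range]
      constructor
      · rintro ⟨⟨p, hp, rfl⟩, h2⟩
        by_contra hcon
        have hpc : p ≠ c := by
          rintro rfl
          rw [if_pos rfl] at hcon
          omega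
        rw [if_neg hpc] at hcon h2
        have h4 := h2 (c - 1) (by omega)
        rw [Finset.card_le_one] at h4
        have := h4 (c - 1) (mem_filter.2 ⟨mem_range.2 (by omega), by rw [if_neg]; omega⟩) c
          (mem_filter.2 ⟨mem_range.2 (by omega), by rw [if_pos rfl]⟩)
        omega
      · intro hj
        refine ⟨⟨j, mem_range.2 (by omega), by rw [if_neg]; omega⟩, ?_⟩
        intro i hi
        have h3 : (range m).filter (fun p => (if p = c then c - 1 else p) = i) ⊆ {i} := by
          intro p hp
          rw [mem_filter] at hp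
          rw [mem_singleton]
          split_ifs at hp <;> omega
        exact (Finset.card_le_card h3).trans (by simp)
    rw [e1, e2] at h1
    have h2 : Tp R d (range m) (range c) := hT.trans hOca hO h1.symm
    by_cases hcm : c = m - 1
    · rw [hcm] at h2
      exact h2
    · have h3 := h2.push (mn_mono (m - 2))
      rw [fs_mn (by omega)] at h3
      have e3 : fs (fun j => min j (m - 2)) (range c) = range c := by
        apply fs_id
        intro p hp
        rw [mem_range] at hp
        exact min_eq_left (by omega)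
      rw [e3] at h3
      exact h2.trans hOca hO h3.symm

theorem ocr_jp {R : FC} {d m : ℕ} (hOca : OcaStmt) (hO : O3 R) (hm : 1 ≤ m)
    (hT : Tp R d (range m) (range (m - 1))) : JP R m d := by
  intro k a b ha hb hc hpr
  set S := pr k a with hS
  have hf : Monotone (fun r : ℕ => en S (min r (m - 1))) := by
    intro i j hij
    simp only
    have h1 : min i (m - 1) ≤ min j (m - 1) := min_le_min_right _ hij
    rcases h1.eq_or_lt with h2 | h2
    · rw [h2]
    · have h3 := min_le_right j (m - 1)
      exact (en_lt h2 (by omega)).le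
  have h1 := hT.push hf
  have hinj : Set.InjOn (fun r : ℕ => en S (min r (m - 1))) (range m) := by
    intro i hi j hj hij
    rw [mem_coe, mem_range] at hi hj
    simp only at hij
    rw [min_eq_left (by omega), min_eq_left (by omega)] at hij
    exact en_inj S (by rw [mem_coe, mem_range]; omega) (by rw [mem_coe, mem_range]; omega) hij
  have e1 : fs (fun r : ℕ => en S (min r (m - 1))) (range m) = S := by
    rw [fs_inj hinj]
    have h2 : (range m).image (fun r : ℕ => en S (min r (m - 1))) = (range m).image (en S) := by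
      apply Finset.image_congr
      intro r hr
      rw [mem_coe, mem_range] at hr
      simp only
      rw [min_eq_left (by omega)]
    rw [h2, ← hc, en_image]
  have hsub : (range (m - 1) : Finset ℕ) ⊆ range m := by
    intro x hx
    rw [mem_range] at hx ⊢
    omega
  have e2 : fs (fun r : ℕ => en S (min r (m - 1))) (range (m - 1)) = tr (m - 1) S := by
    have hinj2 : Set.InjOn (fun r : ℕ => en S (min r (m - 1))) (range (m - 1)) :=
      hinj.mono (by exact_mod_cast hsub)
    rw [fs_inj hinj2]
    apply Finset.eq_of_subset_of_card_le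
    · intro x hx
      obtain ⟨r, hr, rfl⟩ := mem_image.1 hx
      rw [mem_range] at hr
      rw [min_eq_left (by omega), mem_tr]
      refine ⟨en_mem (by omega), ?_⟩
      have h3 : (S.filter (fun i => i < en S r)) ⊆ (range r).image (en S) := by
        intro y hy
        rw [mem_filter] at hy
        rw [← en_image S] at hy
        obtain ⟨⟨s, hs, rfl⟩, hlt⟩ := (⟨mem_image.1 hy.1, hy.2⟩ : (∃ s ∈ range (#S), en S s = y) ∧ _)
        rw [mem_range] at hs
        rw [mem_image]
        refine ⟨s, ?_, rfl⟩
        rw [mem_range]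
        by_contra hcon
        rw [en_image] at hlt
        rcases (show r ≤ s by omega).eq_or_lt with h4 | h4
        · rw [h4] at hlt
          omega
        · have := en_lt h4 hs
          omega
      have h4 := (Finset.card_le_card h3).trans Finset.card_image_le
      rw [card_range] at h4
      omega
    · rw [tr_card, Finset.card_image_of_injOn hinj2, card_range]
      exact min_le_left _ _
  rw [e1, e2] at h1
  exact h1.rel hOca hO ha hb rfl hpr

/-! ### two blocks -/

/-- the two smallest elements -/
def Two (P : Finset ℕ) (p1 p2 : ℕ) : Prop := p1 < p2 ∧ p1 ∈ P ∧ p2 ∈ P ∧ ∀ x ∈ P, x = p1 ∨ p2 ≤ x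

theorem shape {P : Finset ℕ} (h : P.Nonempty) : (∃ p, P = {p}) ∨ ∃ p1 p2, Two P p1 p2 := by
  by_cases h2 : (P.erase (P.min' h)).Nonempty
  · right
    refine ⟨P.min' h, (P.erase (P.min' h)).min' h2, ?_, P.min'_mem h, ?_, ?_⟩
    · have h3 := (P.erase (P.min' h)).min'_mem h2
      rw [mem_erase] at h3
      exact lt_of_le_of_ne (P.min'_le _ h3.2) h3.1.symm
    · exact (mem_erase.1 ((P.erase (P.min' h)).min'_mem h2)).2
    · intro x hx
      by_cases hx1 : x = P.min' h
      · exact Or.inl hx1
      · right
        exact Finset.min'_le _ _ (mem_erase.2 ⟨hx1, hx⟩)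
  · left
    refine ⟨P.min' h, ?_⟩
    rw [Finset.not_nonempty_iff_eq_empty] at h2
    ext x
    rw [mem_singleton]
    constructor
    · intro hx
      by_contra hcon
      have h3 : x ∈ P.erase (P.min' h) := mem_erase.2 ⟨hcon, hx⟩
      rw [h2] at h3
      simp at h3
    · rintro rfl
      exact P.min'_mem h

theorem cut_le' {t p : ℕ} (h : p ≤ t) : cut t p = 0 := by
  unfold cut
  rw [if_pos h]

theorem cut_gt {t p : ℕ} (h : t < p) : cut t p = 1 := by
  unfold cut
  rw [if_neg (by omega)]

theorem cut_two0 {P : Finset ℕ} {p1 p2 t : ℕ} (h : Two P p1 p2) (ht : t < p1) :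
    fs (cut t) P = {1} := by
  obtain ⟨h1, h2, h3, h4⟩ := h
  have h5 : ∀ p ∈ P, cut t p = 1 := by
    intro p hp
    apply cut_gt
    rcases h4 p hp with h | h <;> omega
  ext j
  rw [mem_fs, mem_singleton]
  constructor
  · rintro ⟨⟨p, hp, rfl⟩, _⟩
    exact h5 p hp
  · rintro rfl
    refine ⟨⟨p1, h2, h5 p1 h2⟩, ?_⟩
    intro i hi
    rw [Finset.filter_false_of_mem]
    · simp
    · intro p hp
      rw [h5 p hp]
      omega

theorem cut_two1 {P : Finset ℕ} {p1 p2 t : ℕ} (h : Two P p1 p2) (ht : p1 ≤ t) (ht' : t < p2) :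
    fs (cut t) P = {0, 1} := by
  obtain ⟨h1, h2, h3, h4⟩ := h
  ext j
  rw [mem_fs, mem_insert, mem_singleton]
  constructor
  · rintro ⟨⟨p, hp, rfl⟩, _⟩
    have := cut_le t p
    omega
  · intro hj
    have h5 : (P.filter (fun p => cut t p = 0)) ⊆ {p1} := by
      intro p hp
      rw [mem_filter] at hp
      rw [mem_singleton]
      rcases h4 p hp.1 with h | h
      · exact h
      · rw [cut_gt (by omega)] at hp
        omega
    rcases hj with rfl | rfl
    · exact ⟨⟨p1, h2, cut_le' ht⟩, fun i hi => by omega⟩
    · refine ⟨⟨p2, h3, cut_gt ht'⟩, ?_⟩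
      intro i hi
      obtain rfl : i = 0 := by omega
      exact (Finset.card_le_card h5).trans (by simp)

theorem cut_two2 {P : Finset ℕ} {p1 p2 t : ℕ} (h : Two P p1 p2) (ht : p2 ≤ t) :
    fs (cut t) P = {0} := by
  obtain ⟨h1, h2, h3, h4⟩ := h
  ext j
  rw [mem_fs, mem_singleton]
  constructor
  · rintro ⟨⟨p, hp, rfl⟩, h5⟩
    by_contra hcon
    have h6 := h5 0 (by omega)
    rw [Finset.card_le_one] at h6
    have := h6 p1 (mem_filter.2 ⟨h2, cut_le' (by omega)⟩) p2 (mem_filter.2 ⟨h3, cut_le' ht⟩)
    omega
  · rintro rfl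
    exact ⟨⟨p1, h2, cut_le' (by omega)⟩, fun i hi => by omega⟩

theorem tr2_one (p : ℕ) : tr 2 {p} = {p} := by
  ext x
  rw [mem_tr, mem_singleton]
  constructor
  · exact fun h => h.1
  · rintro rfl
    refine ⟨rfl, ?_⟩
    have h3 : ({x} : Finset ℕ).filter (fun i => i < x) = ∅ := by
      rw [Finset.filter_false_of_mem]
      intro i hi
      rw [mem_singleton] at hi
      omega
    rw [h3]
    simp

theorem tr2_two {P : Finset ℕ} {p1 p2 : ℕ} (h : Two P p1 p2) : tr 2 P = {p1, p2} := by
  obtain ⟨h1, h2, h3, h4⟩ := h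
  ext x
  rw [mem_tr, mem_insert, mem_singleton]
  constructor
  · rintro ⟨hx, h5⟩
    by_contra hcon
    push Not at hcon
    have h6 : p2 < x := by
      rcases h4 x hx with h | h
      · exact absurd h hcon.1
      · omega
    have h7 : ({p1, p2} : Finset ℕ) ⊆ P.filter (fun i => i < x) := by
      intro y hy
      rw [mem_insert, mem_singleton] at hy
      rw [mem_filter]
      rcases hy with rfl | rfl
      · exact ⟨h2, by omega⟩
      · exact ⟨h3, by omega⟩
    have h8 := Finset.card_le_card h7
    rw [Finset.card_pair (by omega)] at h8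
    omega
  · rintro (rfl | rfl)
    · refine ⟨h2, ?_⟩
      have h6 : P.filter (fun i => i < x) = ∅ := by
        rw [Finset.filter_false_of_mem]
        intro i hi
        rcases h4 i hi with h | h <;> omega
      rw [h6]
      simp
    · refine ⟨h3, ?_⟩
      have h6 : P.filter (fun i => i < x) ⊆ {p1} := by
        intro i hi
        rw [mem_filter] at hi
        rw [mem_singleton]
        rcases h4 i hi.1 with h | h
        · exact h
        · omega
      have := Finset.card_le_card h6
      rw [card_singleton] at this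
      omega

theorem min_two {P : Finset ℕ} {p1 p2 : ℕ} (h : Two P p1 p2) : P.min = WithTop.some p1 := by
  obtain ⟨h1, h2, h3, h4⟩ := h
  apply le_antisymm (Finset.min_le h2)
  apply Finset.le_min
  intro x hx
  rw [WithTop.coe_le_coe]
  rcases h4 x hx with h | h <;> omega

theorem bm_one (p : ℕ) : bm {p} = WithBot.some p := by
  unfold bm
  rw [tr2_one, Finset.max_singleton]

theorem bm_two {P : Finset ℕ} {p1 p2 : ℕ} (h : Two P p1 p2) : bm P = WithBot.some p2 := by
  unfold bm
  rw [tr2_two h]
  have h1 := h.1
  apply le_antisymm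
  · apply Finset.max_le
    intro x hx
    rw [mem_insert, mem_singleton] at hx
    rw [WithBot.coe_le_coe]
    omega
  · exact Finset.le_max (by simp)

theorem card_two {P : Finset ℕ} {p1 p2 : ℕ} (h : Two P p1 p2) : P.card ≠ 1 := by
  obtain ⟨h1, h2, h3, h4⟩ := h
  intro h5
  rw [Finset.card_eq_one] at h5
  obtain ⟨a, rfl⟩ := h5
  rw [mem_singleton] at h2 h3
  omega

/-- the cases with different minima -/
theorem ocr_bc {R : FC} {d : ℕ} (hOca : OcaStmt) (hO : O3 R) {P Q : Finset ℕ}
    (hT : Tp R d P Q) (hP : P.Nonempty) (hQ : Q.Nonempty) (hmin : P.min < Q.min)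
    (hne : ¬ (P.card = 1 ∧ Q.card = 1)) :
    Tp R d {1} {0, 1} ∧ (bm P ≠ bm Q → Tp R d {0} {0, 1} ∧ Tp R d {0} {1}) := by
  rcases shape hP with ⟨p, rfl⟩ | ⟨p1, p2, hp⟩
  · rcases shape hQ with ⟨q, rfl⟩ | ⟨q1, q2, hq⟩
    · exfalso
      apply hne
      simp
    · rw [Finset.min_singleton, min_two hq, WithTop.coe_lt_coe] at hmin
      have h1 := hT.push (cut_mono p)
      rw [fs_single, cut_le' le_rfl, cut_two0 hq hmin] at h1
      have h2 := hT.push (cut_mono q1)
      rw [fs_single, cut_le' hmin.le, cut_two1 hq le_rfl hq.1] at h2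
      exact ⟨h1.symm.trans hOca hO h2, fun _ => ⟨h2, h1⟩⟩
  · rcases shape hQ with ⟨q, rfl⟩ | ⟨q1, q2, hq⟩
    · rw [Finset.min_singleton, min_two hp, WithTop.coe_lt_coe] at hmin
      have h1 := hT.push (cut_mono p1)
      rw [fs_single, cut_gt hmin, cut_two1 hp le_rfl hp.1] at h1
      refine ⟨h1.symm, ?_⟩
      intro hb
      rw [bm_two hp, bm_one] at hb
      have hb' : p2 ≠ q := fun h => hb (by rw [h])
      rcases lt_or_gt_of_ne hb' with h | h
      · have h2 := hT.push (cut_mono p2)
        rw [fs_single, cut_gt h, cut_two2 hp le_rfl] at h2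
        exact ⟨h2.trans hOca hO h1.symm, h2⟩
      · have h2 := hT.push (cut_mono q)
        rw [fs_single, cut_le' le_rfl, cut_two1 hp hmin.le h] at h2
        exact ⟨h2.symm, h2.symm.trans hOca hO h1⟩
    · rw [min_two hp, min_two hq, WithTop.coe_lt_coe] at hmin
      have h1 := hT.push (cut_mono p1)
      rw [cut_two0 hq hmin, cut_two1 hp le_rfl hp.1] at h1
      refine ⟨h1.symm, ?_⟩
      intro hb
      rw [bm_two hp, bm_two hq] at hb
      have hb' : p2 ≠ q2 := fun h => hb (by rw [h])
      rcases lt_or_gt_of_ne hb' with h | h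
      · have h2 := hT.push (cut_mono p2)
        rw [cut_two2 hp le_rfl] at h2
        by_cases hq1 : q1 ≤ p2
        · rw [cut_two1 hq hq1 h] at h2
          exact ⟨h2, h2.trans hOca hO h1⟩
        · rw [cut_two0 hq (by omega)] at h2
          exact ⟨h2.trans hOca hO h1.symm, h2⟩
      · have h2 := hT.push (cut_mono q2)
        have := hq.1
        rw [cut_two2 hq le_rfl, cut_two1 hp (by omega) h] at h2
        exact ⟨h2.symm, h2.symm.trans hOca hO h1⟩

theorem deg_v2 (x y : ℕ) : deg 1 (v2 x y) = x + y := by
  simp [deg, Finset.sum_range_succ, v2]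

theorem pr_v20 {d : ℕ} (hd : 2 ≤ d) : pr 1 (v2 d 0) = {0} := by
  ext j
  rw [mem_pr, mem_singleton]
  constructor
  · rintro ⟨h1, h2, _⟩
    unfold v2 at h2
    split_ifs at h2 <;> omega
  · rintro rfl
    refine ⟨by omega, ?_, fun i hi => by omega⟩
    unfold v2
    rw [if_pos rfl]
    omega

theorem pr_v02 {d : ℕ} (hd : 2 ≤ d) : pr 1 (v2 0 d) = {1} := by
  ext j
  rw [mem_pr, mem_singleton]
  constructor
  · rintro ⟨h1, h2, _⟩
    unfold v2 at h2
    split_ifs at h2 <;> omega
  · rintro rfl
    refine ⟨le_refl 1, ?_, ?_⟩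
    · unfold v2
      rw [if_neg (by omega), if_pos rfl]
      omega
    · intro i hi
      obtain rfl : i = 0 := by omega
      unfold v2
      rw [if_pos rfl]
      omega

theorem pr_v21 {d : ℕ} (hd : 2 ≤ d) : pr 1 (v2 1 (d - 1)) = {0, 1} := by
  ext j
  rw [mem_pr, mem_insert, mem_singleton]
  constructor
  · rintro ⟨h1, _, _⟩
    omega
  · intro hj
    rcases hj with rfl | rfl
    · refine ⟨by omega, ?_, fun i hi => by omega⟩
      unfold v2
      rw [if_pos rfl]
      omega
    · refine ⟨le_refl 1, ?_, ?_⟩
      · unfold v2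
        rw [if_neg (by omega), if_pos rfl]
        omega
      · intro i hi
        obtain rfl : i = 0 := by omega
        unfold v2
        rw [if_pos rfl]

/-- **Row OCR**. -/
theorem ocr (hSep : SepStmt) (hOca : OcaStmt) : OcrStmt := by
  intro R k a b hO hd hdeg hR _
  have hP : (pr k a).Nonempty := pr_nonempty (by omega)
  have hQ : (pr k b).Nonempty := pr_nonempty (by omega)
  have hT : Tp R (deg k a) (pr k a) (pr k b) := ⟨k, a, b, rfl, hdeg.symm, rfl, rfl, hR⟩
  generalize deg k a = d at hd hdeg hT
  generalize pr k a = P at hP hT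
  generalize pr k b = Q at hQ hT
  have toA : Tp R d {0} {0, 1} → A3 R d := fun h =>
    h.rel hOca hO (by rw [deg_v2, add_zero]) (by rw [deg_v2]; omega) (pr_v20 hd) (pr_v21 hd)
  have toB : Tp R d {1} {0, 1} → B3 R d := fun h =>
    h.rel hOca hO (by rw [deg_v2, zero_add]) (by rw [deg_v2]; omega) (pr_v02 hd) (pr_v21 hd)
  have toC : Tp R d {0} {1} → C3 R d := fun h =>
    h.rel hOca hO (by rw [deg_v2, add_zero]) (by rw [deg_v2, zero_add]) (pr_v20 hd) (pr_v02 hd)
  refine ⟨?_, ?_, ?_, ?_, ?_⟩
  · intro m hm hne hc
    apply ocr_jp hOca hO (by omega)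
    have key : ∃ S S' : Finset ℕ, S.card = m ∧ S' ⊂ S ∧ S'.Nonempty ∧ Tp R d S S' := by
      rcases hc with hc | hc
      · exact ocr_prop hSep hm hT hP hQ hne hc
      · exact ocr_prop hSep hm hT.symm hQ hP hne.symm hc
    obtain ⟨S, S', hS, hSS, hS', hT'⟩ := key
    have hSn : S.Nonempty := by
      rw [← Finset.card_pos]
      omega
    have h1 := hT'.push (rk_mono S)
    have hinj : Set.InjOn (rk S) S' := (rk_inj S).mono (by exact_mod_cast hSS.1)
    rw [fs_inj (rk_inj S), rk_image S hSn, hS, fs_inj hinj] at h1
    apply ocr_j3 hOca hO hm h1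
    · rw [← hS, ← rk_image S hSn, Finset.ssubset_iff_subset_ne]
      constructor
      · exact Finset.image_subset_image hSS.1
      · intro he
        have h2 := congrArg Finset.card he
        rw [Finset.card_image_of_injOn hinj, Finset.card_image_of_injOn (rk_inj S)] at h2
        exact absurd h2 (Finset.card_lt_card hSS).ne
    · exact hS'.image _
  · intro hmin hne
    apply toA
    rcases shape hP with ⟨p, rfl⟩ | ⟨p1, p2, hp⟩
    · rcases shape hQ with ⟨q, rfl⟩ | ⟨q1, q2, hq⟩
      · exfalso
        rw [Finset.min_singleton, Finset.min_singleton, WithTop.coe_inj] at hmin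
        rw [hmin] at hne
        exact hne rfl
      · rw [Finset.min_singleton, min_two hq, WithTop.coe_inj] at hmin
        have h1 := hT.push (cut_mono p)
        rw [fs_single, cut_le' le_rfl, cut_two1 hq hmin.ge (by rw [hmin]; exact hq.1)] at h1
        exact h1
    · rcases shape hQ with ⟨q, rfl⟩ | ⟨q1, q2, hq⟩
      · rw [Finset.min_singleton, min_two hp, WithTop.coe_inj] at hmin
        have h1 := hT.push (cut_mono q)
        rw [fs_single, cut_le' le_rfl, cut_two1 hp hmin.le (by rw [← hmin]; exact hp.1)] at h1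
        exact h1.symm
      · rw [min_two hp, min_two hq, WithTop.coe_inj] at hmin
        rw [tr2_two hp, tr2_two hq, hmin] at hne
        have h2 : p2 ≠ q2 := by
          rintro rfl
          exact hne rfl
        have hp1 := hp.1
        have hq1 := hq.1
        rcases lt_or_gt_of_ne h2 with h | h
        · have h1 := hT.push (cut_mono p2)
          rw [cut_two2 hp le_rfl, cut_two1 hq (by omega) h] at h1
          exact h1
        · have h1 := hT.push (cut_mono q2)
          rw [cut_two2 hq le_rfl, cut_two1 hp (by omega) h] at h1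
          exact h1.symm
  · intro hmin h1 h2
    apply toC
    rw [Finset.card_eq_one] at h1 h2
    obtain ⟨p, rfl⟩ := h1
    obtain ⟨q, rfl⟩ := h2
    rw [Finset.min_singleton, Finset.min_singleton] at hmin
    have hpq : p ≠ q := fun h => hmin (by rw [h])
    rcases lt_or_gt_of_ne hpq with h | h
    · have h1 := hT.push (cut_mono p)
      rw [fs_single, fs_single, cut_le' le_rfl, cut_gt h] at h1
      exact h1
    · have h1 := hT.push (cut_mono q)
      rw [fs_single, fs_single, cut_le' le_rfl, cut_gt h] at h1
      exact h1.symm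
  · intro hmin hne
    apply toB
    rcases lt_or_gt_of_ne hmin with h | h
    · exact (ocr_bc hOca hO hT hP hQ h hne).1
    · exact (ocr_bc hOca hO hT.symm hQ hP h (fun hh => hne ⟨hh.2, hh.1⟩)).1
  · intro hmin hne hbm
    rcases lt_or_gt_of_ne hmin with h | h
    · have h1 := (ocr_bc hOca hO hT hP hQ h hne).2 hbm
      exact ⟨toA h1.1, toC h1.2⟩
    · have h1 := (ocr_bc hOca hO hT.symm hQ hP h (fun hh => hne ⟨hh.2, hh.1⟩)).2 hbm.symm
      exact ⟨toA h1.1, toC h1.2⟩

end Pool.Agent.MVO.H62
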