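import Pool.Agent.MVO.StmtsF

/-!
# Squad MVO, row SCC: sufficiency for class Cc
-/

set_option autoImplicit false

namespace Pool.Agent.MVO.H62

open Pool.Agent.Helper14_MV Pool.Agent.Helper2_MV

/-- **Row SCC**. -/
theorem scc (hSfc : SfcStmt) (_hMrt : MrtStmt) (hMrc : MrcStmt) (hSf3 : Sf3Stmt) : SccStmt := by
  intro β hcc hcl hg
  obtain ⟨m1, m2, m3, m4, m5, m6, m7, m8, m9, m10, m11, m12, m13, m14, m15, m16, m17⟩ := hMrc β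
  obtain ⟨hC, hO⟩ := hg
  rcases hcl with h | h | h | h
  · refine hSfc β ⟨hcc, h⟩ ⟨hC, ?_⟩
    rcases hO with ⟨h1, h2, _⟩ | h1 | h1 | h1
    · exact Or.inl ⟨h1, h2⟩
    · exact Or.inr (Or.inl h1)
    · exact Or.inr (Or.inr (Or.inl h1))
    · exact Or.inr (Or.inr (Or.inr h1))
  · apply m17
    refine hSfc (MVD.mir β) ⟨m1.2 hcc, m2.2 h⟩ ⟨m16 hC, ?_⟩
    rcases hO with ⟨h1, _, h2⟩ | ⟨h1, h2⟩ | ⟨h1, h2⟩ | h1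
    · exact Or.inl ⟨m8.2 h1, m12 h1 h2⟩
    · exact Or.inr (Or.inr (Or.inl ⟨m10.2 h1, m14 h2⟩))
    · exact Or.inr (Or.inl ⟨m9.2 h1, m15 h2⟩)
    · exact Or.inr (Or.inr (Or.inr (m11.2 h1)))
  · exact hSf3 β ⟨hcc, h⟩ ⟨hC, hO⟩
  · apply m17
    refine hSf3 (MVD.mir β) ⟨m1.2 hcc, h⟩ ⟨m16 hC, ?_⟩
    rcases hO with ⟨h1, h2, h2'⟩ | ⟨h1, h2⟩ | ⟨h1, h2⟩ | h1
    · exact Or.inl ⟨m8.2 h1, m12 h1 h2', m13 h1 h2⟩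
    · exact Or.inr (Or.inr (Or.inl ⟨m10.2 h1, m14 h2⟩))
    · exact Or.inr (Or.inl ⟨m9.2 h1, m15 h2⟩)
    · exact Or.inr (Or.inr (Or.inr (m11.2 h1)))

end Pool.Agent.MVO.H62
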