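import Pool.Agent.Helper62_MVO.Psh

/-!
# Squad MVO: profiles of pushed vectors (helper62)
-/

set_option autoImplicit false

namespace Pool.Agent.MVO.H62

open Pool.Agent.MVO Finset

/-- the image of a profile, cut behind the first collision -/
def fs (f : ℕ → ℕ) (P : Finset ℕ) : Finset ℕ :=
  (P.image f).filter (fun j => ∀ i < j, (P.filter (fun p => f p = i)).card ≤ 1)

theorem mem_fs {f : ℕ → ℕ} {P : Finset ℕ} {j : ℕ} :
    j ∈ fs f P ↔ (∃ p ∈ P, f p = j) ∧ ∀ i < j, (P.filter (fun p => f p = i)).card ≤ 1 := by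
  unfold fs
  rw [mem_filter, mem_image]

theorem mem_pr {k : ℕ} {a : ℕ → ℕ} {j : ℕ} :
    j ∈ pr k a ↔ j ≤ k ∧ a j ≠ 0 ∧ ∀ i < j, a i ≤ 1 := by
  unfold pr sp
  rw [mem_filter, mem_filter, mem_range, and_assoc, Nat.lt_succ_iff]

theorem pr_nonempty {k : ℕ} {a : ℕ → ℕ} (h : deg k a ≠ 0) : (pr k a).Nonempty := by
  classical
  have h1 : ∃ j, j ≤ k ∧ a j ≠ 0 := by
    by_contra hcon
    push Not at hcon
    apply h
    unfold deg
    apply Finset.sum_eq_zero
    intro j hj
    rw [mem_range] at hj
    exact hcon j (by omega)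
  refine ⟨Nat.find h1, ?_⟩
  rw [mem_pr]
  refine ⟨(Nat.find_spec h1).1, (Nat.find_spec h1).2, ?_⟩
  intro i hi
  have h2 := Nat.find_min h1 hi
  have h3 := (Nat.find_spec h1).1
  push Not at h2
  have := h2 (by omega)
  omega

theorem pr_psh {k k' : ℕ} {f : ℕ → ℕ} (hf : BMap k k' f) (a : ℕ → ℕ) :
    pr k' (psh k f a) = fs f (pr k a) := by
  classical
  ext j
  rw [mem_pr, mem_fs]
  constructor
  · rintro ⟨hj, h0, h1⟩
    have h2 : ∃ x, x ≤ k ∧ f x = j ∧ a x ≠ 0 := by
      by_contra hcon
      push Not at hcon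
      apply h0
      unfold psh
      apply Finset.sum_eq_zero
      intro x hx
      rw [mem_range] at hx
      split_ifs with hfx
      · exact hcon x (by omega) hfx
      · rfl
    have hle : ∀ y ≤ k, a y ≤ psh k f a (f y) := by
      intro y hy
      unfold psh
      have h3 := Finset.single_le_sum (s := range (k + 1))
        (f := fun i => if f i = f y then a i else 0) (fun i _ => Nat.zero_le _)
        (mem_range.2 (Nat.lt_succ_of_le hy))
      simpa using h3
    refine ⟨⟨Nat.find h2, ?_, (Nat.find_spec h2).2.1⟩, ?_⟩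
    · rw [mem_pr]
      refine ⟨(Nat.find_spec h2).1, (Nat.find_spec h2).2.2, ?_⟩
      intro y hy
      have h3 := Nat.find_min h2 hy
      have h4 := (Nat.find_spec h2).1
      have h5 : f y ≤ f (Nat.find h2) := hf.mono _ _ hy.le h4
      rw [(Nat.find_spec h2).2.1] at h5
      rcases h5.eq_or_lt with h6 | h6
      · push Not at h3
        have := h3 (by omega) h6
        omega
      · exact (hle y (by omega)).trans (h1 _ h6)
    · intro i hi
      have h3 := h1 i hi
      have h4 : ((pr k a).filter (fun p => f p = i)).card ≤ psh k f a i := by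
        unfold psh
        rw [Finset.card_eq_sum_ones]
        calc ∑ x ∈ (pr k a).filter (fun p => f p = i), 1
            ≤ ∑ x ∈ (pr k a).filter (fun p => f p = i), (if f x = i then a x else 0) := by
              apply Finset.sum_le_sum
              intro x hx
              rw [mem_filter, mem_pr] at hx
              rw [if_pos hx.2]
              have := hx.1.2.1
              omega
          _ ≤ ∑ x ∈ range (k + 1), (if f x = i then a x else 0) := by
              apply Finset.sum_le_sum_of_subset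
              intro x hx
              rw [mem_filter, mem_pr] at hx
              rw [mem_range]
              omega
      omega
  · rintro ⟨⟨p, hp, rfl⟩, h1⟩
    rw [mem_pr] at hp
    obtain ⟨hp1, hp2, hp3⟩ := hp
    refine ⟨hf.le p hp1, ?_, ?_⟩
    · unfold psh
      have h3 := Finset.single_le_sum (s := range (k + 1))
        (f := fun i => if f i = f p then a i else 0) (fun i _ => Nat.zero_le _)
        (mem_range.2 (Nat.lt_succ_of_le hp1))
      simp only [if_true] at h3
      omega
    · intro i hi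
      refine le_trans ?_ (h1 i hi)
      unfold psh
      rw [Finset.card_eq_sum_ones, ← Finset.sum_filter]
      calc ∑ x ∈ (range (k + 1)).filter (fun x => f x = i), a x
          ≤ ∑ x ∈ (range (k + 1)).filter (fun x => f x = i), (if a x = 0 then 0 else 1) := by
            apply Finset.sum_le_sum
            intro x hx
            rw [mem_filter, mem_range] at hx
            have hxp : x < p := by
              by_contra hcon
              have := hf.mono p x (by omega) (by omega)
              omega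
            have := hp3 x hxp
            split_ifs with h
            · omega
            · exact this
        _ = ∑ x ∈ ((range (k + 1)).filter (fun x => f x = i)).filter (fun x => ¬ a x = 0), 1 := by
            conv_rhs => rw [Finset.sum_filter]
            apply Finset.sum_congr rfl
            intro x _
            by_cases h : a x = 0
            · simp [h]
            · simp [h]
        _ ≤ ∑ x ∈ (pr k a).filter (fun x => f x = i), 1 := by
            apply Finset.sum_le_sum_of_subset
            intro x hx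
            rw [mem_filter, mem_filter, mem_range] at hx
            rw [mem_filter, mem_pr]
            have hxp : x < p := by
              by_contra hcon
              have := hf.mono p x (by omega) (by omega)
              omega
            refine ⟨⟨by omega, hx.2, ?_⟩, hx.1.2⟩
            intro y hy
            exact hp3 y (by omega)

theorem fs_inj {f : ℕ → ℕ} {P : Finset ℕ} (h : Set.InjOn f P) : fs f P = P.image f := by
  unfold fs
  rw [Finset.filter_true_of_mem]
  intro j _ i _
  rw [Finset.card_le_one]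
  intro x hx y hy
  rw [mem_filter] at hx hy
  exact h hx.1 hy.1 (by rw [hx.2, hy.2])

theorem fs_id {f : ℕ → ℕ} {P : Finset ℕ} (h : ∀ p ∈ P, f p = p) : fs f P = P := by
  rw [fs_inj]
  · ext j
    rw [mem_image]
    constructor
    · rintro ⟨p, hp, rfl⟩
      rw [h p hp]
      exact hp
    · intro hj
      exact ⟨j, hj, h j hj⟩
  · intro x hx y hy hxy
    rw [h x hx, h y hy] at hxy
    exact hxy

theorem fs_subset (f : ℕ → ℕ) (P : Finset ℕ) : fs f P ⊆ P.image f := filter_subset _ _

theorem fs_nonempty {f : ℕ → ℕ} (hf : Monotone f) {P : Finset ℕ} (hP : P.Nonempty) :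
    (fs f P).Nonempty := by
  refine ⟨f (P.min' hP), ?_⟩
  rw [mem_fs]
  refine ⟨⟨_, P.min'_mem hP, rfl⟩, ?_⟩
  intro i hi
  rw [Finset.filter_false_of_mem]
  · simp
  · intro p hp
    have := hf (P.min'_le p hp)
    omega

/-- the relation between profiles given by a functorial congruence in degree `d` -/
def Tp (R : FC) (d : ℕ) (P Q : Finset ℕ) : Prop :=
  ∃ (k : ℕ) (a b : ℕ → ℕ), deg k a = d ∧ deg k b = d ∧ pr k a = P ∧ pr k b = Q ∧ R.R k a b

theorem Tp.symm {R : FC} {d : ℕ} {P Q : Finset ℕ} (h : Tp R d P Q) : Tp R d Q P := by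
  obtain ⟨k, a, b, h1, h2, h3, h4, h5⟩ := h
  exact ⟨k, b, a, h2, h1, h4, h3, R.symm h5⟩

theorem Tp.push {R : FC} {d : ℕ} {P Q : Finset ℕ} (h : Tp R d P Q) {f : ℕ → ℕ}
    (hf : Monotone f) : Tp R d (fs f P) (fs f Q) := by
  obtain ⟨k, a, b, h1, h2, rfl, rfl, h5⟩ := h
  have hb : BMap k (f k) f := bmap_of hf (fun i hi => hf hi)
  refine ⟨f k, psh k f a, psh k f b, ?_, ?_, pr_psh hb a, pr_psh hb b, R.push _ _ hb h5⟩
  · rw [deg_psh hb, h1]
  · rw [deg_psh hb, h2]

theorem Tp.rel {R : FC} {d : ℕ} (hOca : OcaStmt) (hO : O3 R) {P Q : Finset ℕ} (h : Tp R d P Q)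
    {k : ℕ} {a b : ℕ → ℕ} (ha : deg k a = d) (hb : deg k b = d) (hP : pr k a = P)
    (hQ : pr k b = Q) : R.R k a b := by
  obtain ⟨k0, a0, b0, h1, h2, h3, h4, h5⟩ := h
  have hm : Monotone (fun j : ℕ => min j k) := fun i j hij => by
    simp only [le_min_iff]
    omega
  have hbm : BMap k0 k (fun j => min j k) := bmap_of hm (fun i _ => min_le_right _ _)
  have e1 : pr k (psh k0 (fun j => min j k) a0) = P := by
    rw [pr_psh hbm, h3, fs_id]
    intro p hp
    rw [← hP, mem_pr] at hp
    exact min_eq_left hp.1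
  have e2 : pr k (psh k0 (fun j => min j k) b0) = Q := by
    rw [pr_psh hbm, h4, fs_id]
    intro p hp
    rw [← hQ, mem_pr] at hp
    exact min_eq_left hp.1
  have r1 : R.R k a (psh k0 (fun j => min j k) a0) :=
    hOca R k _ _ hO (by rw [deg_psh hbm, h1, ha]) (by rw [hP, e1])
  have r2 : R.R k (psh k0 (fun j => min j k) b0) b :=
    hOca R k _ _ hO (by rw [deg_psh hbm, h2, hb]) (by rw [hQ, e2])
  exact R.trans r1 (R.trans (R.push _ _ hbm h5) r2)

theorem Tp.trans {R : FC} {d : ℕ} (hOca : OcaStmt) (hO : O3 R) {P Q S : Finset ℕ}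
    (h : Tp R d P Q) (h' : Tp R d Q S) : Tp R d P S := by
  obtain ⟨k, a, b, h1, h2, h3, h4, h5⟩ := h
  obtain ⟨k', b', c', h1', h2', h3', h4', h5'⟩ := h'
  have hm : Monotone (fun j : ℕ => j) := fun i j hij => hij
  have hb : BMap k (max k k') (fun j => j) := bmap_of hm (fun i hi => hi.trans (le_max_left _ _))
  have hb' : BMap k' (max k k') (fun j => j) :=
    bmap_of hm (fun i hi => hi.trans (le_max_right _ _))
  have e : ∀ P : Finset ℕ, fs (fun j => j) P = P := fun P => fs_id (fun _ _ => rfl)
  refine ⟨max k k', psh k (fun j => j) a, psh k' (fun j => j) c', ?_, ?_, ?_, ?_, ?_⟩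
  · rw [deg_psh hb, h1]
  · rw [deg_psh hb', h2']
  · rw [pr_psh hb, e, h3]
  · rw [pr_psh hb', e, h4']
  · have r1 := R.push _ _ hb h5
    have r2 := R.push _ _ hb' h5'
    have r3 : R.R (max k k') (psh k (fun j => j) b) (psh k' (fun j => j) b') := by
      apply hOca R _ _ _ hO
      · rw [deg_psh hb, deg_psh hb', h2, h1']
      · rw [pr_psh hb, pr_psh hb', e, e, h4, h3']
    exact R.trans r1 (R.trans r3 r2)

/-! ### the first elements -/

theorem mem_tr {m : ℕ} {P : Finset ℕ} {j : ℕ} :
    j ∈ tr m P ↔ j ∈ P ∧ (P.filter (fun i => i < j)).card < m := by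
  unfold tr
  rw [mem_filter]

theorem tr_subset (m : ℕ) (P : Finset ℕ) : tr m P ⊆ P := filter_subset _ _

/-- the number of smaller elements -/
def rl (P : Finset ℕ) (j : ℕ) : ℕ := (P.filter (fun i => i < j)).card

theorem rl_lt {P : Finset ℕ} {i j : ℕ} (hi : i ∈ P) (hij : i < j) : rl P i < rl P j := by
  unfold rl
  apply Finset.card_lt_card
  rw [Finset.ssubset_iff_of_subset]
  · refine ⟨i, mem_filter.2 ⟨hi, hij⟩, ?_⟩
    rw [mem_filter]
    omega
  · intro x hx
    rw [mem_filter] at hx ⊢
    exact ⟨hx.1, by omega⟩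

theorem rl_inj (P : Finset ℕ) : Set.InjOn (rl P) P := by
  intro i hi j hj h
  rcases lt_trichotomy i j with h1 | h1 | h1
  · exact absurd h (rl_lt hi h1).ne
  · exact h1
  · exact absurd h (rl_lt hj h1).ne'

theorem rl_lt_card {P : Finset ℕ} {i : ℕ} (hi : i ∈ P) : rl P i < P.card := by
  unfold rl
  apply Finset.card_lt_card
  rw [Finset.ssubset_iff_of_subset (filter_subset _ _)]
  refine ⟨i, hi, ?_⟩
  rw [mem_filter]
  omega

theorem rl_image (P : Finset ℕ) : P.image (rl P) = range P.card := by
  apply Finset.eq_of_subset_of_card_le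
  · intro x hx
    obtain ⟨i, hi, rfl⟩ := mem_image.1 hx
    exact mem_range.2 (rl_lt_card hi)
  · rw [Finset.card_image_of_injOn (rl_inj P), card_range]

theorem tr_card (m : ℕ) (P : Finset ℕ) : (tr m P).card = min m P.card := by
  have h1 : (tr m P).image (rl P) = range (min m P.card) := by
    ext x
    rw [mem_image, mem_range, lt_min_iff]
    constructor
    · rintro ⟨j, hj, rfl⟩
      rw [mem_tr] at hj
      exact ⟨hj.2, rl_lt_card hj.1⟩
    · rintro ⟨h1, h2⟩
      have h3 : x ∈ P.image (rl P) := by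
        rw [rl_image, mem_range]
        exact h2
      obtain ⟨j, hj, rfl⟩ := mem_image.1 h3
      exact ⟨j, mem_tr.2 ⟨hj, h1⟩, rfl⟩
  rw [← Finset.card_image_of_injOn ((rl_inj P).mono (tr_subset m P)), h1, card_range]

theorem tr_lower {m : ℕ} {P : Finset ℕ} {i j : ℕ} (hj : j ∈ tr m P) (hi : i ∈ P) (hij : i < j) :
    i ∈ tr m P := by
  rw [mem_tr] at hj ⊢
  exact ⟨hi, (rl_lt hi hij).trans hj.2⟩

theorem tr_nonempty {m : ℕ} {P : Finset ℕ} (hm : 1 ≤ m) (hP : P.Nonempty) :
    (tr m P).Nonempty := by
  rw [← Finset.card_pos, tr_card]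
  have := Finset.card_pos.2 hP
  omega

/-- a retraction onto the first `m` elements -/
theorem fs_ret {m : ℕ} {P : Finset ℕ} {f : ℕ → ℕ} (hf : Monotone f)
    (h1 : ∀ j, f j ∈ tr m P) (h2 : ∀ s ∈ tr m P, f s = s) : fs f P = tr m P := by
  ext j
  rw [mem_fs]
  constructor
  · rintro ⟨⟨p, _, rfl⟩, _⟩
    exact h1 p
  · intro hj
    refine ⟨⟨j, tr_subset m P hj, h2 j hj⟩, ?_⟩
    intro i hi
    have h3 : P.filter (fun p => f p = i) ⊆ {i} := by
      intro p hp
      rw [mem_filter] at hp
      rw [mem_singleton]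
      by_cases hpt : p ∈ tr m P
      · rw [← hp.2, h2 p hpt]
      · exfalso
        have hjp : j ≤ p := by
          by_contra hcon
          exact hpt (tr_lower hj hp.1 (by omega))
        have := hf hjp
        rw [h2 j hj, hp.2] at this
        omega
    exact (Finset.card_le_card h3).trans (by simp)

/-- elements of the image come from the first elements -/
theorem fs_from {m : ℕ} {Q : Finset ℕ} {f : ℕ → ℕ} (hf : Monotone f)
    (h : (fs f Q).card ≤ m) : fs f Q ⊆ (tr m Q).image f := by
  classical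
  intro j hj
  have hj' := hj
  rw [mem_fs] at hj
  obtain ⟨h1, h2⟩ := hj
  have h1' : ∃ q, q ∈ Q ∧ f q = j := by
    obtain ⟨q, hq, hfq⟩ := h1
    exact ⟨q, hq, hfq⟩
  obtain ⟨hq, hfq⟩ := Nat.find_spec h1'
  set q := Nat.find h1' with hqdef
  rw [mem_image]
  refine ⟨q, ?_, hfq⟩
  rw [mem_tr]
  refine ⟨hq, ?_⟩
  have hlt : ∀ x ∈ Q, x < q → f x < j := by
    intro x hx hxq
    have h3 := Nat.find_min h1' hxq
    have h4 : f x ≤ j := by
      rw [← hfq]
      exact hf hxq.le
    rcases h4.eq_or_lt with h5 | h5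
    · exact absurd ⟨hx, h5⟩ h3
    · exact h5
  have h3 : (Q.filter (fun i => i < q)).card ≤ ((fs f Q).erase j).card := by
    apply Finset.card_le_card_of_injOn f
    · intro x hx
      rw [mem_coe, mem_filter] at hx
      rw [mem_coe, mem_erase]
      refine ⟨(hlt x hx.1 hx.2).ne, ?_⟩
      rw [mem_fs]
      exact ⟨⟨x, hx.1, rfl⟩, fun i hi => h2 i (hi.trans (hlt x hx.1 hx.2))⟩
    · intro x hx y hy hxy
      rw [mem_coe, mem_filter] at hx hy
      have h4 := h2 (f x) (hlt x hx.1 hx.2)
      rw [Finset.card_le_one] at h4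
      exact h4 x (mem_filter.2 ⟨hx.1, rfl⟩) y (mem_filter.2 ⟨hy.1, hxy.symm⟩)
  rw [Finset.card_erase_of_mem hj'] at h3
  have h4 := Finset.card_pos.2 ⟨j, hj'⟩
  omega

end Pool.Agent.MVO.H62
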