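import Pool.Agent.MVO.StmtsL

/-!
# Squad MVO: tools on pushed vectors (helper62)
-/

set_option autoImplicit false

namespace Pool.Agent.MVO.H62

open Pool.Agent.MVO Finset

theorem bmap_of {f : ℕ → ℕ} (hf : Monotone f) {k k' : ℕ} (h : ∀ i ≤ k, f i ≤ k') :
    BMap k k' f :=
  ⟨fun _ _ hij _ => hf hij, h⟩

theorem deg_psh {k k' : ℕ} {f : ℕ → ℕ} (hf : BMap k k' f) (a : ℕ → ℕ) :
    deg k' (psh k f a) = deg k a := by
  unfold deg psh
  rw [Finset.sum_comm]
  refine Finset.sum_congr rfl fun i hi => ?_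
  rw [Finset.mem_range] at hi
  rw [Finset.sum_ite_eq, if_pos]
  rw [Finset.mem_range]
  have := hf.le i (by omega)
  omega

theorem mem_par {k : ℕ} {a : ℕ → ℕ} {j : ℕ} : j ∈ par k a ↔ j ≤ k ∧ Odd (a j) := by
  unfold par
  rw [Finset.mem_filter, Finset.mem_range, Nat.odd_iff]
  omega

theorem odd_deg_iff (k : ℕ) (a : ℕ → ℕ) : Odd (deg k a) ↔ Odd (par k a).card := by
  unfold deg par
  rw [Finset.odd_sum_iff_odd_card_odd]
  have h : ((range (k + 1)).filter fun x => Odd (a x)) =
      (range (k + 1)).filter fun j => a j % 2 = 1 := by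
    refine Finset.filter_congr fun x _ => ?_
    rw [Nat.odd_iff]
  rw [h]

theorem card_par_mod (k : ℕ) (a : ℕ → ℕ) : (par k a).card % 2 = deg k a % 2 := by
  have h := odd_deg_iff k a
  rw [Nat.odd_iff, Nat.odd_iff] at h
  omega

theorem mem_par_psh {k k' : ℕ} {f : ℕ → ℕ} (a : ℕ → ℕ) {j : ℕ} :
    j ∈ par k' (psh k f a) ↔ j ≤ k' ∧ Odd ((par k a).filter fun i => f i = j).card := by
  rw [mem_par]
  refine and_congr_right fun _ => ?_
  unfold psh
  rw [Finset.odd_sum_iff_odd_card_odd]
  have h : ((range (k + 1)).filter fun x => Odd (if f x = j then a x else 0)) =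
      (par k a).filter fun i => f i = j := by
    ext x
    rw [Finset.mem_filter, Finset.mem_filter, mem_par, Finset.mem_range]
    by_cases hx : f x = j
    · simp only [hx, if_true, and_true]
      rw [Nat.lt_succ_iff]
    · simp [hx]
  rw [h]

theorem par_psh_subset {k k' : ℕ} {f : ℕ → ℕ} (a : ℕ → ℕ) :
    par k' (psh k f a) ⊆ (par k a).image f := by
  intro j hj
  rw [mem_par_psh] at hj
  have h1 : ((par k a).filter fun i => f i = j).Nonempty := by
    rw [← Finset.card_pos]
    exact hj.2.pos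
  obtain ⟨i, hi⟩ := h1
  rw [Finset.mem_filter] at hi
  exact Finset.mem_image.2 ⟨i, hi.1, hi.2⟩

theorem card_par_psh_le {k k' : ℕ} {f : ℕ → ℕ} (a : ℕ → ℕ) :
    (par k' (psh k f a)).card ≤ (par k a).card :=
  (Finset.card_le_card (par_psh_subset a)).trans Finset.card_image_le

theorem par_psh_inj {k k' : ℕ} {f : ℕ → ℕ} (hf : BMap k k' f) (a : ℕ → ℕ)
    (hinj : Set.InjOn f (par k a)) : par k' (psh k f a) = (par k a).image f := by
  refine Finset.Subset.antisymm (par_psh_subset a) ?_
  intro j hj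
  obtain ⟨i, hi, rfl⟩ := Finset.mem_image.1 hj
  rw [mem_par_psh]
  refine ⟨hf.le i (mem_par.1 hi).1, ?_⟩
  have h1 : ((par k a).filter fun i' => f i' = f i) = {i} := by
    ext x
    rw [Finset.mem_filter, Finset.mem_singleton]
    constructor
    · rintro ⟨hx, hxi⟩
      exact hinj hx hi hxi
    · rintro rfl
      exact ⟨hi, rfl⟩
  rw [h1, Finset.card_singleton]
  exact odd_one

/-- the rank function of a finite set -/
def rk (S : Finset ℕ) (j : ℕ) : ℕ := (S.filter fun i => i ≤ j).card - 1

theorem rk_mono (S : Finset ℕ) : Monotone (rk S) := by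
  intro i j hij
  unfold rk
  apply Nat.sub_le_sub_right
  apply Finset.card_le_card
  intro x hx
  rw [Finset.mem_filter] at hx ⊢
  exact ⟨hx.1, by omega⟩

theorem rk_lt (S : Finset ℕ) (hS : S.Nonempty) (j : ℕ) : rk S j < S.card := by
  unfold rk
  have h1 : (S.filter fun i => i ≤ j).card ≤ S.card := Finset.card_le_card (filter_subset _ _)
  have h2 := Finset.card_pos.2 hS
  omega

theorem rk_lt_rk {S : Finset ℕ} {i j : ℕ} (hi : i ∈ S) (hj : j ∈ S) (hij : i < j) :
    rk S i < rk S j := by
  unfold rk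
  have h1 : (S.filter fun x => x ≤ i).card < (S.filter fun x => x ≤ j).card := by
    apply Finset.card_lt_card
    rw [Finset.ssubset_iff_of_subset]
    · refine ⟨j, Finset.mem_filter.2 ⟨hj, le_refl j⟩, ?_⟩
      rw [Finset.mem_filter]
      omega
    · intro x hx
      rw [Finset.mem_filter] at hx ⊢
      exact ⟨hx.1, by omega⟩
  have h2 : 0 < (S.filter fun x => x ≤ i).card :=
    Finset.card_pos.2 ⟨i, Finset.mem_filter.2 ⟨hi, le_refl i⟩⟩
  omega

theorem rk_inj (S : Finset ℕ) : Set.InjOn (rk S) S := by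
  intro i hi j hj h
  rcases lt_trichotomy i j with h1 | h1 | h1
  · exact absurd h (rk_lt_rk hi hj h1).ne
  · exact h1
  · exact absurd h (rk_lt_rk hj hi h1).ne'

theorem rk_image (S : Finset ℕ) (hS : S.Nonempty) : S.image (rk S) = range S.card := by
  apply Finset.eq_of_subset_of_card_le
  · intro x hx
    obtain ⟨i, _, rfl⟩ := Finset.mem_image.1 hx
    exact Finset.mem_range.2 (rk_lt S hS i)
  · rw [Finset.card_image_of_injOn (rk_inj S), Finset.card_range]

/-- the increasing enumeration of a finite set -/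
noncomputable def en (S : Finset ℕ) (r : ℕ) : ℕ :=
  if h : r < S.card then S.orderEmbOfFin rfl ⟨r, h⟩ else 0

theorem en_mem {S : Finset ℕ} {r : ℕ} (h : r < S.card) : en S r ∈ S := by
  unfold en
  rw [dif_pos h]
  exact Finset.orderEmbOfFin_mem S rfl _

theorem en_lt {S : Finset ℕ} {r r' : ℕ} (h : r < r') (h' : r' < S.card) : en S r < en S r' := by
  unfold en
  rw [dif_pos h', dif_pos (by omega)]
  exact (S.orderEmbOfFin rfl).strictMono h

theorem en_inj (S : Finset ℕ) : Set.InjOn (en S) (range S.card) := by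
  intro i hi j hj h
  rw [Finset.mem_coe, Finset.mem_range] at hi hj
  rcases lt_trichotomy i j with h1 | h1 | h1
  · exact absurd h (en_lt h1 hj).ne
  · exact h1
  · exact absurd h (en_lt h1 hi).ne'

theorem en_image (S : Finset ℕ) : (range S.card).image (en S) = S := by
  apply Finset.eq_of_subset_of_card_le
  · intro x hx
    obtain ⟨i, hi, rfl⟩ := Finset.mem_image.1 hx
    exact en_mem (Finset.mem_range.1 hi)
  · rw [Finset.card_image_of_injOn (en_inj S), Finset.card_range]

theorem en_bmap {S : Finset ℕ} {k m : ℕ} (hS : ∀ s ∈ S, s ≤ k) (hm : S.card = m + 1) :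
    BMap m k (en S) := by
  constructor
  · intro i j hij hj
    rcases hij.eq_or_lt with h | h
    · rw [h]
    · exact (en_lt h (by omega)).le
  · intro i hi
    exact hS _ (en_mem (by omega))

end Pool.Agent.MVO.H62
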